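import Pool.Agent.H37.Ki3

set_option autoImplicit false

namespace Pool.Agent.Results.MP_fd63cb_lc.Rational

open Pool.Agent.H37.Ki

theorem result (V : List Bool →. List Bool) (hV : Opt V) (enc : List (List Bool) → List Bool)
    (he : Computable enc) (hi : Function.Injective enc) (n : ℕ) (lam : Finset (Fin n) → ℚ)
    (h : Valid fun S => (lam S : ℝ)) :
    ∃ c : ℝ, ∀ x : Fin n → List Bool, -c ≤ ∑ S, (lam S : ℝ) * KP V (enc (sub x S)) :=
  rational hV he hi lam h

end Pool.Agent.Results.MP_fd63cb_lc.Rational
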