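import Pool.Agent.H37.Ki3

set_option autoImplicit false

namespace Pool.Agent.Results.MP_fd63cb_lc.ZhangYeung

open Pool.Agent.H37.Ki

theorem result (V : List Bool →. List Bool) (hV : Opt V) (enc : List (List Bool) → List Bool)
    (he : Computable enc) (hi : Function.Injective enc) (K : List (List Bool) → ℝ)
    (hK : ∀ l, K l = KP V (enc l)) :
    ∃ c : ℝ, ∀ x₁ x₂ x₃ x₄ : List Bool,
      2 * (K [x₃] + K [x₄] - K [x₃, x₄]) ≤
        (K [x₁] + K [x₂] - K [x₁, x₂]) + (K [x₁] + K [x₃, x₄] - K [x₁, x₃, x₄]) +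
        3 * (K [x₁, x₃] + K [x₁, x₄] - K [x₁, x₃, x₄] - K [x₁]) +
        (K [x₂, x₃] + K [x₂, x₄] - K [x₂, x₃, x₄] - K [x₂]) + c := by
  obtain ⟨c, hc⟩ := zy_kp hV he hi
  refine ⟨c, fun a b x y => ?_⟩
  have := (Nat.cast_le (α := ℝ)).2 (hc a b x y)
  push_cast at this
  simp only [hK]
  linarith

end Pool.Agent.Results.MP_fd63cb_lc.ZhangYeung
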